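import Pool.Agent.Helper20.Griff.Goals

set_option autoImplicit false
set_option linter.unusedSectionVars false

namespace Pool.Agent.Helper67.GriffCE

open Pool.Agent.Helper20.Griff
open scoped ComplexOrder Matrix

/-- squared Euclidean norm -/
noncomputable def nn {κ : Type*} [Fintype κ] (u : κ → ℂ) : ℝ := ∑ s, Complex.normSq (u s)

section form
variable {μ : Type*} [Fintype μ] {r : ℕ}

/-- the sesquilinear form on `μ → ℂ^r` given by blocks `Γ` -/
noncomputable def form (Γ : μ → μ → Matrix (Fin r) (Fin r) ℂ) (W W' : μ → Fin r → ℂ) : ℂ :=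
  ∑ a, ∑ b, star (W a) ⬝ᵥ (Γ a b).mulVec (W' b)

/-- the product vectors -/
noncomputable def tens (v : μ → ℂ) (u : Fin r → ℂ) : μ → Fin r → ℂ := fun a => star (v a) • u

theorem nn_nonneg {κ : Type*} [Fintype κ] (u : κ → ℂ) : 0 ≤ nn u :=
  Finset.sum_nonneg fun _ _ => Complex.normSq_nonneg _

theorem nn_eq_zero {κ : Type*} [Fintype κ] {u : κ → ℂ} (h : nn u = 0) : u = 0 := by
  unfold nn at h
  rw [Finset.sum_eq_zero_iff_of_nonneg fun _ _ => Complex.normSq_nonneg _] at h
  funext s
  exact Complex.normSq_eq_zero.1 (h s (Finset.mem_univ s))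

theorem nn_pos {κ : Type*} [Fintype κ] {u : κ → ℂ} (h : u ≠ 0) : 0 < nn u :=
  lt_of_le_of_ne (nn_nonneg u) fun h0 => h (nn_eq_zero h0.symm)

theorem nn_smul {κ : Type*} [Fintype κ] (c : ℂ) (u : κ → ℂ) :
    nn (c • u) = Complex.normSq c * nn u := by
  unfold nn
  rw [Finset.mul_sum]
  refine Finset.sum_congr rfl fun s _ => ?_
  rw [Pi.smul_apply, smul_eq_mul, Complex.normSq_mul]

theorem dot_self {κ : Type*} [Fintype κ] (u : κ → ℂ) : star u ⬝ᵥ u = (nn u : ℂ) := by
  unfold nn dotProduct
  push_cast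
  refine Finset.sum_congr rfl fun s _ => ?_
  rw [Pi.star_apply, Complex.normSq_eq_conj_mul_self]
  rfl

theorem form_add_left (Γ : μ → μ → Matrix (Fin r) (Fin r) ℂ) (W₁ W₂ W' : μ → Fin r → ℂ) :
    form Γ (W₁ + W₂) W' = form Γ W₁ W' + form Γ W₂ W' := by
  simp only [form, Pi.add_apply, star_add, add_dotProduct, Finset.sum_add_distrib]

theorem form_add_right (Γ : μ → μ → Matrix (Fin r) (Fin r) ℂ) (W W₁ W₂ : μ → Fin r → ℂ) :
    form Γ W (W₁ + W₂) = form Γ W W₁ + form Γ W W₂ := by
  simp only [form, Pi.add_apply, Matrix.mulVec_add, dotProduct_add, Finset.sum_add_distrib]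

theorem form_smul (Γ : μ → μ → Matrix (Fin r) (Fin r) ℂ) (c : ℂ) (W W' : μ → Fin r → ℂ) :
    form Γ (c • W) (c • W') = (Complex.normSq c : ℂ) * form Γ W W' := by
  simp only [form, Pi.smul_apply, star_smul, smul_dotProduct, Matrix.mulVec_smul,
    dotProduct_smul, smul_eq_mul, Finset.mul_sum]
  refine Finset.sum_congr rfl fun a _ => Finset.sum_congr rfl fun b _ => ?_
  rw [Complex.normSq_eq_conj_mul_self, Complex.star_def]
  ring

theorem form_star (Γ : μ → μ → Matrix (Fin r) (Fin r) ℂ) (hΓ : ∀ a b, (Γ a b)ᴴ = Γ b a)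
    (W W' : μ → Fin r → ℂ) : star (form Γ W W') = form Γ W' W := by
  unfold form
  rw [star_sum, Finset.sum_comm]
  rw [Finset.sum_comm]
  simp only [star_sum]
  rw [Finset.sum_comm]
  refine Finset.sum_congr rfl fun b _ => Finset.sum_congr rfl fun a _ => ?_
  rw [← Matrix.star_dotProduct_star, star_star, Matrix.star_mulVec, hΓ]
  rw [Matrix.dotProduct_mulVec, dotProduct_comm]

theorem sesq_form (Γ : μ → μ → Matrix (Fin r) (Fin r) ℂ) (φ ψ : μ → ℂ) (u v : Fin r → ℂ) :
    star u ⬝ᵥ (sesq Γ φ ψ).mulVec v = form Γ (tens φ u) (tens ψ v) := by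
  unfold form sesq tens
  rw [Matrix.sum_mulVec, dotProduct_sum]
  refine Finset.sum_congr rfl fun a _ => ?_
  rw [Matrix.sum_mulVec, dotProduct_sum]
  refine Finset.sum_congr rfl fun b _ => ?_
  rw [Matrix.smul_mulVec, dotProduct_smul, star_smul, star_star, smul_dotProduct,
    Matrix.mulVec_smul, dotProduct_smul, smul_smul]

/-- squared norm of a tuple -/
noncomputable def NN (W : μ → Fin r → ℂ) : ℝ := ∑ a, nn (W a)

theorem NN_nonneg (W : μ → Fin r → ℂ) : 0 ≤ NN W := Finset.sum_nonneg fun _ _ => nn_nonneg _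

theorem NN_tens (v : μ → ℂ) (u : Fin r → ℂ) : NN (tens v u) = nn v * nn u := by
  unfold NN tens
  rw [nn, Finset.sum_mul]
  refine Finset.sum_congr rfl fun a _ => ?_
  rw [nn_smul, Complex.star_def, Complex.normSq_conj]

/-- bound of the form -/
theorem form_bound (Γ : μ → μ → Matrix (Fin r) (Fin r) ℂ) :
    ∃ C : ℝ, 1 ≤ C ∧ ∀ W W' : μ → Fin r → ℂ, ‖form Γ W W'‖ ≤ C * (√(NN W) * √(NN W')) := by
  refine ⟨(∑ a, ∑ b, ∑ s, ∑ t, ‖Γ a b s t‖) + 1, ?_, ?_⟩
  · have : 0 ≤ ∑ a, ∑ b, ∑ s, ∑ t, ‖Γ a b s t‖ := by positivity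
    linarith
  intro W W'
  have hW : ∀ (W : μ → Fin r → ℂ) a s, ‖W a s‖ ≤ √(NN W) := by
    intro W a s
    apply Real.le_sqrt_of_sq_le
    rw [← Complex.normSq_eq_norm_sq]
    calc Complex.normSq (W a s) ≤ nn (W a) :=
          Finset.single_le_sum (f := fun s => Complex.normSq (W a s))
            (fun _ _ => Complex.normSq_nonneg _) (Finset.mem_univ s)
      _ ≤ NN W := Finset.single_le_sum (f := fun a => nn (W a))
            (fun _ _ => nn_nonneg _) (Finset.mem_univ a)
  have h1 : ‖form Γ W W'‖ ≤ ∑ a, ∑ b, ∑ s, ∑ t, ‖Γ a b s t‖ * (√(NN W) * √(NN W')) := by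
    unfold form
    refine (norm_sum_le _ _).trans (Finset.sum_le_sum fun a _ => ?_)
    refine (norm_sum_le _ _).trans (Finset.sum_le_sum fun b _ => ?_)
    unfold dotProduct
    refine (norm_sum_le _ _).trans (Finset.sum_le_sum fun s _ => ?_)
    unfold Matrix.mulVec dotProduct
    rw [Finset.mul_sum]
    refine (norm_sum_le _ _).trans (Finset.sum_le_sum fun t _ => ?_)
    rw [norm_mul, norm_mul, Pi.star_apply, norm_star]
    calc ‖W a s‖ * (‖Γ a b s t‖ * ‖W' b t‖) = ‖Γ a b s t‖ * (‖W a s‖ * ‖W' b t‖) := by ring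
      _ ≤ _ := by
        refine mul_le_mul_of_nonneg_left ?_ (norm_nonneg _)
        exact mul_le_mul (hW W a s) (hW W' b t) (norm_nonneg _) (Real.sqrt_nonneg _)
  simp only [← Finset.sum_mul] at h1
  refine h1.trans ?_
  have : 0 ≤ √(NN W) * √(NN W') := by positivity
  linarith

end form

section main
variable {n r : ℕ} (T : Fin n → Fin n → Matrix (Fin r) (Fin r) ℂ) (ε K : ℝ)

/-- the middle block -/
noncomputable def Te : Fin n → Fin n → Matrix (Fin r) (Fin r) ℂ :=
  fun j l => T j l + if j = l then (ε : ℂ) • 1 else 0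

theorem Te_herm (hT : IsPositiveMap T) (j l : Fin n) : (Te T ε j l)ᴴ = Te T ε l j := by
  unfold Te
  rw [Matrix.conjTranspose_add, hT.1]
  congr 1
  by_cases h : j = l
  · subst h
    simp [Matrix.conjTranspose_smul]
  · rw [if_neg h, if_neg (Ne.symm h), Matrix.conjTranspose_zero]

theorem form_Te (W : Fin n → Fin r → ℂ) :
    form (Te T ε) W W = form T W W + (ε * NN W : ℝ) := by
  unfold form Te
  have : ∀ j, ∑ l, star (W j) ⬝ᵥ (T j l + if j = l then (ε : ℂ) • (1 : Matrix (Fin r) (Fin r) ℂ)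
      else 0).mulVec (W l) = ∑ l, star (W j) ⬝ᵥ (T j l).mulVec (W l) + (ε : ℂ) * (nn (W j) : ℂ) := by
    intro j
    simp only [Matrix.add_mulVec, dotProduct_add, Finset.sum_add_distrib]
    congr 1
    rw [Finset.sum_eq_single j]
    · rw [if_pos rfl, Matrix.smul_mulVec, Matrix.one_mulVec, dotProduct_smul, dot_self,
        smul_eq_mul]
    · intro l _ hl
      rw [if_neg (Ne.symm hl)]; simp
    · simp
  simp only [this, Finset.sum_add_distrib]
  congr 1
  unfold NN
  push_cast
  rw [Finset.mul_sum]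

theorem Te_pos (hT : IsPositiveMap T) (v : Fin n → ℂ) (u : Fin r → ℂ) :
    ε * (nn v * nn u) ≤ (form (Te T ε) (tens v u) (tens v u)).re := by
  rw [form_Te, NN_tens]
  obtain ⟨y, hy, h⟩ := hT.2 v u
  have h2 : form T (tens v u) (tens v u) = y := by
    rw [← h, ← sesq_form]; rfl
  rw [h2, Complex.add_re, Complex.ofReal_re, Complex.ofReal_re]
  linarith

/-- the total vector -/
noncomputable def WW (z ξ : Fin (n + 1) → ℂ) (u p : Fin r → ℂ) : Mon n → Fin r → ℂ :=
  tens (dmon z ξ) u + tens (mon z) p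

theorem WW_shift (z ξ : Fin (n + 1) → ℂ) (u p : Fin r → ℂ) (c : ℂ) :
    WW z ξ u p = WW z (ξ - c • z) u (p + (2 * star c) • u) := by
  funext a
  have key : dmon z ξ a = dmon z (ξ - c • z) a + 2 * c * mon z a := by
    rcases a with a | a | a
    · simp only [dmon, mon, Sum.elim_inl, Pi.sub_apply, Pi.smul_apply, smul_eq_mul]; ring
    · simp only [dmon, mon, Sum.elim_inl, Sum.elim_inr, Pi.sub_apply, Pi.smul_apply,
        smul_eq_mul]; ring
    · simp only [dmon, mon, Sum.elim_inr, Pi.sub_apply, Pi.smul_apply, smul_eq_mul]; ring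
  simp only [WW, tens, Pi.add_apply]
  rw [key, star_add, star_mul', star_mul']
  have h2 : star (2 : ℂ) = 2 := by simp
  rw [h2, add_smul, smul_add, smul_smul]
  have : star (mon z a) * (2 * star c) = 2 * star c * star (mon z a) := by ring
  rw [this]
  abel

theorem form_coefG (W : Mon n → Fin r → ℂ) :
    form (coefG T ε K) W W = (nn (W (Sum.inl ())) : ℂ)
      + form (Te T ε) (fun j => W (Sum.inr (Sum.inl j))) (fun j => W (Sum.inr (Sum.inl j)))
      + (K * NN (fun q : Fin n × Fin n => W (Sum.inr (Sum.inr q))) : ℝ) := by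
  unfold form
  rw [Fintype.sum_sum_type, Fintype.sum_sum_type]
  simp only [Fintype.sum_sum_type, Finset.univ_unique, PUnit.default_eq_unit,
    Finset.sum_singleton]
  have e1 : ∀ x : Fin n × Fin n, ∑ y : Fin n × Fin n, star (W (Sum.inr (Sum.inr x))) ⬝ᵥ
      (coefG T ε K (Sum.inr (Sum.inr x)) (Sum.inr (Sum.inr y))).mulVec (W (Sum.inr (Sum.inr y))) =
      (K : ℂ) * (nn (W (Sum.inr (Sum.inr x))) : ℂ) := by
    intro x
    rw [Finset.sum_eq_single x]
    · simp only [coefG, if_true]
      rw [Matrix.smul_mulVec, Matrix.one_mulVec, dotProduct_smul, dot_self, smul_eq_mul]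
    · intro y _ hy
      simp only [coefG]
      rw [if_neg (Ne.symm hy)]
      simp
    · simp
  simp only [e1]
  simp only [coefG, Matrix.zero_mulVec, dotProduct_zero, Finset.sum_const_zero, add_zero,
    zero_add, Matrix.one_mulVec, dot_self, Te]
  rw [add_assoc]
  congr 2
  unfold NN
  push_cast
  rw [Finset.mul_sum]

/-- the form of `Te` is real on the diagonal -/
theorem form_Te_im (hT : IsPositiveMap T) (W : Fin n → Fin r → ℂ) :
    (form (Te T ε) W W).im = 0 := by
  have := form_star (Te T ε) (Te_herm T ε hT) W W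
  exact Complex.conj_eq_iff_im.1 this

theorem nn_cast {κ : Type*} [Fintype κ] (x : κ → ℂ) : (nn x : ℂ) = ∑ j, x j * star (x j) := by
  unfold nn
  push_cast
  refine Finset.sum_congr rfl fun s _ => ?_
  rw [Complex.normSq_eq_conj_mul_self, Complex.star_def, mul_comm]

theorem Kterm (η x : Fin n → ℂ) (u p : Fin r → ℂ) (hort : ∑ j, η j * star (x j) = 0) :
    NN (fun q : Fin n × Fin n => star (η q.1 * x q.2 + x q.1 * η q.2) • u
      + star (x q.1 * x q.2) • p) = 2 * (nn x * nn η * nn u) + nn x ^ 2 * nn p := by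
  have hort' : ∑ j, x j * star (η j) = 0 := by
    have := congrArg star hort
    rw [star_sum, star_zero] at this
    rw [← this]
    refine Finset.sum_congr rfl fun j _ => ?_
    rw [star_mul', star_star, mul_comm]
  have hnn : ∀ c d : ℂ, (nn (star c • u + star d • p) : ℂ) =
      (c * star c) * (nn u : ℂ) + (c * star d) * (star u ⬝ᵥ p) + (d * star c) * (star p ⬝ᵥ u)
      + (d * star d) * (nn p : ℂ) := by
    intro c d
    rw [← dot_self, star_add, star_smul, star_smul, star_star, star_star, add_dotProduct,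
      dotProduct_add, dotProduct_add]
    simp only [smul_dotProduct, dotProduct_smul, smul_eq_mul, dot_self]
    ring
  apply Complex.ofReal_injective
  unfold NN
  push_cast
  simp only [hnn, Finset.sum_add_distrib, ← Finset.sum_mul]
  have s1 : ∑ q : Fin n × Fin n, (η q.1 * x q.2 + x q.1 * η q.2) *
      star (η q.1 * x q.2 + x q.1 * η q.2) = 2 * ((nn x : ℂ) * (nn η : ℂ)) := by
    rw [Fintype.sum_prod_type]
    have : 2 * ((nn x : ℂ) * (nn η : ℂ)) =
        (∑ j, η j * star (η j)) * (∑ k, x k * star (x k))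
        + (∑ j, η j * star (x j)) * (∑ k, x k * star (η k))
        + (∑ j, x j * star (η j)) * (∑ k, η k * star (x k))
        + (∑ j, x j * star (x j)) * (∑ k, η k * star (η k)) := by
      rw [hort, hort', ← nn_cast, ← nn_cast]; ring
    rw [this]
    simp only [Finset.sum_mul_sum, ← Finset.sum_add_distrib]
    refine Finset.sum_congr rfl fun j _ => Finset.sum_congr rfl fun k _ => ?_
    rw [star_add, star_mul', star_mul']
    ring
  have s2 : ∑ q : Fin n × Fin n, (η q.1 * x q.2 + x q.1 * η q.2) *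
      star (x q.1 * x q.2) = 0 := by
    rw [Fintype.sum_prod_type]
    have : (0 : ℂ) =
        (∑ j, η j * star (x j)) * (∑ k, x k * star (x k))
        + (∑ j, x j * star (x j)) * (∑ k, η k * star (x k)) := by
      rw [hort]; ring
    rw [this]
    simp only [Finset.sum_mul_sum, ← Finset.sum_add_distrib]
    refine Finset.sum_congr rfl fun j _ => Finset.sum_congr rfl fun k _ => ?_
    rw [star_mul']
    ring
  have s3 : ∑ q : Fin n × Fin n, (x q.1 * x q.2) *
      star (η q.1 * x q.2 + x q.1 * η q.2) = 0 := by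
    rw [Fintype.sum_prod_type]
    have : (0 : ℂ) =
        (∑ j, x j * star (η j)) * (∑ k, x k * star (x k))
        + (∑ j, x j * star (x j)) * (∑ k, x k * star (η k)) := by
      rw [hort']; ring
    rw [this]
    simp only [Finset.sum_mul_sum, ← Finset.sum_add_distrib]
    refine Finset.sum_congr rfl fun j _ => Finset.sum_congr rfl fun k _ => ?_
    rw [star_add, star_mul', star_mul']
    ring
  have s4 : ∑ q : Fin n × Fin n, (x q.1 * x q.2) * star (x q.1 * x q.2) =
      (nn x : ℂ) * (nn x : ℂ) := by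
    rw [Fintype.sum_prod_type, nn_cast, Finset.sum_mul_sum]
    refine Finset.sum_congr rfl fun j _ => Finset.sum_congr rfl fun k _ => ?_
    rw [star_mul']
    ring
  rw [s1, s2, s3, s4]
  ring

/-- the real number to be shown positive -/
noncomputable def QQ (W : Mon n → Fin r → ℂ) : ℝ :=
  nn (W (Sum.inl ()))
    + (form (Te T ε) (fun j => W (Sum.inr (Sum.inl j))) (fun j => W (Sum.inr (Sum.inl j)))).re
    + K * NN (fun q : Fin n × Fin n => W (Sum.inr (Sum.inr q)))

theorem form_QQ (hT : IsPositiveMap T) (W : Mon n → Fin r → ℂ) :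
    form (coefG T ε K) W W = (QQ T ε K W : ℂ) := by
  rw [form_coefG, QQ]
  have := form_Te_im T ε hT (fun j => W (Sum.inr (Sum.inl j)))
  apply Complex.ext
  · simp
  · simp [this]

theorem re_cross {x y : ℂ} {b : ℝ} (hx : ‖x‖ ≤ b) (hy : ‖y‖ ≤ b) : -(2 * b) ≤ (x + y).re := by
  have h1 := Complex.abs_re_le_norm x
  have h2 := Complex.abs_re_le_norm y
  have h3 := (abs_le.1 (h1.trans hx)).1
  have h4 := (abs_le.1 (h2.trans hy)).1
  rw [Complex.add_re]
  linarith

theorem core1 (hT : IsPositiveMap T) (hε : 0 < ε) (hK : 0 < K) (C : ℝ)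
    (hC : ∀ W W' : Fin n → Fin r → ℂ, ‖form (Te T ε) W W'‖ ≤ C * (√(NN W) * √(NN W')))
    (hC1 : 1 ≤ C)
    (z ξ : Fin (n + 1) → ℂ) (u p : Fin r → ℂ) (hu : u ≠ 0) (hξ0 : ξ 0 = 0) (hξ : ξ ≠ 0)
    (hreg : C ^ 2 * nn (fun j : Fin n => z j.succ) < ε * Complex.normSq (z 0)) :
    0 < QQ T ε K (WW z ξ u p) := by
  set x : Fin n → ℂ := fun j => z j.succ with hx
  set η : Fin n → ℂ := fun j => ξ j.succ with hη
  set a := z 0 with ha
  set A := Complex.normSq a with hA
  have hη0 : η ≠ 0 := by
    intro h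
    apply hξ
    funext j
    refine Fin.cases ?_ (fun j => ?_) j
    · exact hξ0
    · exact congrFun h j
  have hA0 : 0 < A := by
    have : 0 ≤ C ^ 2 * nn x := mul_nonneg (sq_nonneg _) (nn_nonneg _)
    by_contra hcon
    push Not at hcon
    nlinarith
  have hU := nn_pos hu
  have hE := nn_pos hη0
  have hP := nn_nonneg p
  have hX := nn_nonneg x
  have e0 : WW z ξ u p (Sum.inl ()) = star (a * a) • p := by
    simp only [WW, tens, dmon, mon, Pi.add_apply, Sum.elim_inl, hξ0, zero_mul, mul_zero,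
      add_zero, star_zero, zero_smul, zero_add]
    rfl
  have e1 : (fun j => WW z ξ u p (Sum.inr (Sum.inl j))) = star a • (tens η u + tens x p) := by
    funext j
    simp only [WW, tens, dmon, mon, Pi.add_apply, Sum.elim_inl, Sum.elim_inr, hξ0, zero_mul,
      zero_add, Pi.smul_apply, smul_add, star_mul', smul_smul]
    rfl
  have hKN : 0 ≤ K * NN (fun q : Fin n × Fin n => WW z ξ u p (Sum.inr (Sum.inr q))) :=
    mul_nonneg hK.le (NN_nonneg _)
  unfold QQ
  rw [e0, e1, form_smul, nn_smul, Complex.star_def, Complex.normSq_conj,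
    Complex.normSq_conj, Complex.normSq_mul, ← hA, form_add_left, form_add_right, form_add_right]
  have f11 := Te_pos T ε hT η u
  have f22 := Te_pos T ε hT x p
  have f12 := hC (tens η u) (tens x p)
  have f21 := hC (tens x p) (tens η u)
  rw [NN_tens, NN_tens] at f12 f21
  set s := √(nn η * nn u) with hs
  set t := √(nn x * nn p) with ht
  have hss : s ^ 2 = nn η * nn u := Real.sq_sqrt (by positivity)
  have htt : t ^ 2 = nn x * nn p := Real.sq_sqrt (by positivity)
  have hs0 : 0 < s := Real.sqrt_pos.2 (by positivity)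
  have ht0 : 0 ≤ t := Real.sqrt_nonneg _
  have hcr := re_cross f12 (by rw [mul_comm t s] at f21; exact f21)
  rw [Complex.add_re] at hcr
  have hre : ((A : ℂ) * (form (Te T ε) (tens η u) (tens η u) + form (Te T ε) (tens η u) (tens x p)
      + (form (Te T ε) (tens x p) (tens η u) + form (Te T ε) (tens x p) (tens x p)))).re =
      A * ((form (Te T ε) (tens η u) (tens η u)).re + (form (Te T ε) (tens η u) (tens x p)).re
      + (form (Te T ε) (tens x p) (tens η u)).re + (form (Te T ε) (tens x p) (tens x p)).re) := by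
    rw [Complex.re_ofReal_mul]
    simp only [Complex.add_re]
    ring
  rw [hre]
  have hlow : A * (ε * s ^ 2 - 2 * (C * (s * t))) ≤
      A * ((form (Te T ε) (tens η u) (tens η u)).re + (form (Te T ε) (tens η u) (tens x p)).re
      + (form (Te T ε) (tens x p) (tens η u)).re + (form (Te T ε) (tens x p) (tens x p)).re) := by
    refine mul_le_mul_of_nonneg_left ?_ hA0.le
    have : 0 ≤ ε * (nn x * nn p) := by positivity
    rw [hss]
    linarith
  have hmain : 0 < A * nn p + (ε * s ^ 2 - 2 * (C * (s * t))) := by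
    have h1 : ε * (A * nn p + (ε * s ^ 2 - 2 * (C * (s * t)))) =
        (ε * A - C ^ 2 * nn x) * nn p + (ε * s - C * t) ^ 2 := by
      have : C ^ 2 * nn x * nn p = C ^ 2 * t ^ 2 := by rw [htt]; ring
      linear_combination this
    have h2 : 0 < (ε * A - C ^ 2 * nn x) * nn p + (ε * s - C * t) ^ 2 := by
      rcases hP.eq_or_lt with h0 | h0
      · have ht' : t = 0 := by
          rw [ht, ← h0, mul_zero, Real.sqrt_zero]
        rw [ht', ← h0]
        have : 0 < ε * s := by positivity
        nlinarith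
      · have : 0 < (ε * A - C ^ 2 * nn x) * nn p := mul_pos (by linarith) h0
        nlinarith [sq_nonneg (ε * s - C * t)]
    rw [← h1] at h2
    exact (mul_pos_iff_of_pos_left hε).1 h2
  have : A * A * nn p + A * (ε * s ^ 2 - 2 * (C * (s * t))) =
      A * (A * nn p + (ε * s ^ 2 - 2 * (C * (s * t)))) := by ring
  have h5 : 0 < A * (A * nn p + (ε * s ^ 2 - 2 * (C * (s * t)))) := mul_pos hA0 hmain
  linarith

theorem core2 (hT : IsPositiveMap T) (hε : 0 < ε) (C : ℝ)
    (hC : ∀ W W' : Fin n → Fin r → ℂ, ‖form (Te T ε) W W'‖ ≤ C * (√(NN W) * √(NN W')))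
    (hC1 : 1 ≤ C) (hK : K = 2 * C ^ 4 / ε ^ 2)
    (z ξ : Fin (n + 1) → ℂ) (u p : Fin r → ℂ) (hu : u ≠ 0) (hξ : ξ ≠ 0)
    (hx0 : (fun j : Fin n => z j.succ) ≠ 0)
    (hort : ∑ j : Fin n, ξ j.succ * star (z j.succ) = 0)
    (hreg : ε * Complex.normSq (z 0) ≤ C ^ 2 * nn (fun j : Fin n => z j.succ)) :
    0 < QQ T ε K (WW z ξ u p) := by
  set x : Fin n → ℂ := fun j => z j.succ with hx
  set η : Fin n → ℂ := fun j => ξ j.succ with hη
  set a := z 0 with ha
  set A := Complex.normSq a with hA
  set q : Fin r → ℂ := star (ξ 0) • u + star a • p with hq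
  have hC0 : 0 < C := by linarith
  have hK0 : 0 < K := by rw [hK]; positivity
  have hU := nn_pos hu
  have hE := nn_nonneg η
  have hP := nn_nonneg p
  have hX := nn_pos hx0
  have hQ := nn_nonneg q
  have hA0 : 0 ≤ A := Complex.normSq_nonneg _
  have e1 : (fun j => WW z ξ u p (Sum.inr (Sum.inl j))) = tens x q + tens (a • η) u := by
    funext j
    simp only [WW, tens, dmon, mon, Pi.add_apply, Sum.elim_inl, Sum.elim_inr, Pi.smul_apply,
      smul_add, star_mul', star_add, smul_smul, hq, add_smul, smul_eq_mul]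
    have h1 : star (ξ 0) * star (z j.succ) = star (x j) * star (ξ 0) := mul_comm _ _
    have h2 : star a * star (z j.succ) = star (x j) * star a := mul_comm _ _
    rw [h1, h2]
    have h3 : η j = ξ j.succ := rfl
    rw [h3]
    abel
  have e2 : (fun q : Fin n × Fin n => WW z ξ u p (Sum.inr (Sum.inr q))) =
      (fun q : Fin n × Fin n => star (η q.1 * x q.2 + x q.1 * η q.2) • u
      + star (x q.1 * x q.2) • p) := by
    funext q
    simp only [WW, tens, dmon, mon, Pi.add_apply, Sum.elim_inr]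
    rfl
  unfold QQ
  rw [e1, e2, Kterm η x u p hort, form_add_left, form_add_right, form_add_right]
  have hW0 := nn_nonneg (WW z ξ u p (Sum.inl ()))
  have f11 := Te_pos T ε hT x q
  have f22 := Te_pos T ε hT (a • η) u
  have f12 := hC (tens x q) (tens (a • η) u)
  have f21 := hC (tens (a • η) u) (tens x q)
  rw [NN_tens, NN_tens] at f12 f21
  rw [nn_smul, ← hA] at f12 f21 f22
  set s := √(A * nn η * nn u) with hs
  set t := √(nn x * nn q) with ht
  have hss : s ^ 2 = A * nn η * nn u := Real.sq_sqrt (by positivity)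
  have htt : t ^ 2 = nn x * nn q := Real.sq_sqrt (by positivity)
  have hcr := re_cross f12 (by rw [mul_comm s t] at f21; exact f21)
  rw [Complex.add_re] at hcr
  have hre : ((form (Te T ε) (tens x q) (tens x q) + form (Te T ε) (tens x q) (tens (a • η) u)
      + (form (Te T ε) (tens (a • η) u) (tens x q)
        + form (Te T ε) (tens (a • η) u) (tens (a • η) u)))).re =
      ((form (Te T ε) (tens x q) (tens x q)).re + (form (Te T ε) (tens x q) (tens (a • η) u)).re
      + (form (Te T ε) (tens (a • η) u) (tens x q)).re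
        + (form (Te T ε) (tens (a • η) u) (tens (a • η) u)).re) := by
    simp only [Complex.add_re]
    ring
  rw [hre]
  have hlow : ε * t ^ 2 - 2 * (C * (t * s)) ≤
      ((form (Te T ε) (tens x q) (tens x q)).re + (form (Te T ε) (tens x q) (tens (a • η) u)).re
      + (form (Te T ε) (tens (a • η) u) (tens x q)).re
        + (form (Te T ε) (tens (a • η) u) (tens (a • η) u)).re) := by
    have : 0 ≤ ε * (A * nn η * nn u) := by positivity
    rw [htt]
    linarith
  -- 2 C t s ≤ (ε/2) t² + (2 C²/ε) s²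
  have h1 : 2 * (C * (t * s)) ≤ ε / 2 * t ^ 2 + 2 * C ^ 2 / ε * s ^ 2 := by
    have h2 : ε / 2 * t ^ 2 + 2 * C ^ 2 / ε * s ^ 2 - 2 * (C * (t * s)) =
        (ε * t - 2 * C * s) ^ 2 / (2 * ε) := by
      field_simp
      ring
    have h3 : 0 ≤ (ε * t - 2 * C * s) ^ 2 / (2 * ε) := by positivity
    linarith
  have h4 : 2 * C ^ 2 / ε * s ^ 2 ≤ K * (nn x * nn η * nn u) := by
    have h5 : A ≤ C ^ 2 * nn x / ε := by
      rw [le_div_iff₀ hε]; linarith
    calc 2 * C ^ 2 / ε * s ^ 2 = 2 * C ^ 2 / ε * (A * (nn η * nn u)) := by rw [hss]; ring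
      _ ≤ 2 * C ^ 2 / ε * (C ^ 2 * nn x / ε * (nn η * nn u)) := by
        refine mul_le_mul_of_nonneg_left ?_ (by positivity)
        exact mul_le_mul_of_nonneg_right h5 (by positivity)
      _ = K * (nn x * nn η * nn u) := by
        rw [hK]
        field_simp
  have hfin : 0 < ε / 2 * (nn x * nn q) + K * (nn x * nn η * nn u) + K * (nn x ^ 2 * nn p) := by
    by_contra hcon
    push Not at hcon
    have g1 : 0 ≤ ε / 2 * (nn x * nn q) := by positivity
    have g2 : 0 ≤ K * (nn x * nn η * nn u) := by positivity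
    have g3 : 0 ≤ K * (nn x ^ 2 * nn p) := by positivity
    have g1' : ε / 2 * (nn x * nn q) = 0 := by linarith
    have g2' : K * (nn x * nn η * nn u) = 0 := by linarith
    have g3' : K * (nn x ^ 2 * nn p) = 0 := by linarith
    have q0 : nn q = 0 := by
      rcases mul_eq_zero.1 g1' with h | h
      · linarith
      · rcases mul_eq_zero.1 h with h | h
        · linarith
        · exact h
    have η0 : nn η = 0 := by
      rcases mul_eq_zero.1 g2' with h | h
      · linarith
      · rcases mul_eq_zero.1 h with h | h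
        · rcases mul_eq_zero.1 h with h | h
          · linarith
          · exact h
        · linarith
    have p0 : nn p = 0 := by
      rcases mul_eq_zero.1 g3' with h | h
      · linarith
      · rcases mul_eq_zero.1 h with h | h
        · have : nn x ^ 2 ≠ 0 := by positivity
          exact absurd h this
        · exact h
    have hq' := nn_eq_zero q0
    have hp' := nn_eq_zero p0
    have hη' := nn_eq_zero η0
    rw [hq, hp', smul_zero, add_zero] at hq'
    have hξ0 : ξ 0 = 0 := by
      rcases smul_eq_zero.1 hq' with h | h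
      · exact star_eq_zero.1 h
      · exact absurd h hu
    apply hξ
    funext j
    refine Fin.cases ?_ (fun j => ?_) j
    · exact hξ0
    · exact congrFun hη' j
  have hexp : K * (2 * (nn x * nn η * nn u) + nn x ^ 2 * nn p) =
      2 * (K * (nn x * nn η * nn u)) + K * (nn x ^ 2 * nn p) := by ring
  rw [hexp]
  have h6 : ε * t ^ 2 - ε / 2 * t ^ 2 = ε / 2 * (nn x * nn q) := by rw [htt]; ring
  linarith

end main

theorem stmtIneq : StmtIneq := by
  intro n r T hT ε hε
  obtain ⟨C, hC1, hC⟩ := form_bound (Te T ε)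
  have hC0 : 0 < C := by linarith
  refine ⟨2 * C ^ 4 / ε ^ 2, by positivity, ?_⟩
  intro z ξ hz hξ u p hu
  have hK0 : 0 < 2 * C ^ 4 / ε ^ 2 := by positivity
  have hQ : star u ⬝ᵥ (sesq (coefG T ε (2 * C ^ 4 / ε ^ 2)) (dmon z ξ) (dmon z ξ)).mulVec u
        + star u ⬝ᵥ (sesq (coefG T ε (2 * C ^ 4 / ε ^ 2)) (dmon z ξ) (mon z)).mulVec p
        + star p ⬝ᵥ (sesq (coefG T ε (2 * C ^ 4 / ε ^ 2)) (mon z) (dmon z ξ)).mulVec u
        + star p ⬝ᵥ (sesq (coefG T ε (2 * C ^ 4 / ε ^ 2)) (mon z) (mon z)).mulVec p =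
      (QQ T ε (2 * C ^ 4 / ε ^ 2) (WW z ξ u p) : ℂ) := by
    rw [← form_QQ T ε _ hT, sesq_form, sesq_form, sesq_form, sesq_form, WW, form_add_left,
      form_add_right, form_add_right]
    ring
  refine ⟨QQ T ε (2 * C ^ 4 / ε ^ 2) (WW z ξ u p), ?_, hQ⟩
  by_cases hreg : C ^ 2 * nn (fun j : Fin n => z j.succ) < ε * Complex.normSq (z 0)
  · have hz0 : z 0 ≠ 0 := by
      intro h
      rw [h, Complex.normSq_zero, mul_zero] at hreg
      have : 0 ≤ C ^ 2 * nn (fun j : Fin n => z j.succ) :=
        mul_nonneg (sq_nonneg _) (nn_nonneg _)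
      linarith
    rw [WW_shift z ξ u p (ξ 0 / z 0)]
    refine core1 T ε _ hT hε hK0 C hC hC1 z _ u _ hu ?_ ?_ hreg
    · rw [Pi.sub_apply, Pi.smul_apply, smul_eq_mul, div_mul_cancel₀ _ hz0, sub_self]
    · exact sub_ne_zero.2 (hξ _)
  · push Not at hreg
    have hx0 : (fun j : Fin n => z j.succ) ≠ 0 := by
      intro h
      apply hz
      have h1 : nn (fun j : Fin n => z j.succ) = 0 := by
        rw [h]; simp [nn]
      rw [h1, mul_zero] at hreg
      have h2 : Complex.normSq (z 0) = 0 :=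
        le_antisymm (by nlinarith [Complex.normSq_nonneg (z 0)]) (Complex.normSq_nonneg _)
      funext j
      refine Fin.cases ?_ (fun j => ?_) j
      · exact Complex.normSq_eq_zero.1 h2
      · exact congrFun h j
    have hX := nn_pos hx0
    set c : ℂ := (∑ j : Fin n, ξ j.succ * star (z j.succ)) /
      (nn (fun j : Fin n => z j.succ) : ℂ) with hc
    rw [WW_shift z ξ u p c]
    refine core2 T ε _ hT hε C hC hC1 rfl z _ u _ hu (sub_ne_zero.2 (hξ _)) hx0 ?_ hreg
    have hXc : (nn (fun j : Fin n => z j.succ) : ℂ) ≠ 0 := by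
      exact_mod_cast hX.ne'
    have h3 : ∑ j : Fin n, (ξ - c • z) j.succ * star (z j.succ) =
        ∑ j : Fin n, ξ j.succ * star (z j.succ) - c * ∑ j : Fin n, z j.succ * star (z j.succ) := by
      rw [Finset.mul_sum, ← Finset.sum_sub_distrib]
      refine Finset.sum_congr rfl fun j _ => ?_
      rw [Pi.sub_apply, Pi.smul_apply, smul_eq_mul]
      ring
    rw [h3, ← nn_cast (fun j : Fin n => z j.succ), hc, div_mul_cancel₀ _ hXc, sub_self]

end Pool.Agent.Helper67.GriffCE
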